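import Pool.Agent.W96.CL.Stm
set_option autoImplicit false

/-! CL-ROOTC: continuity of roots along a subsequence. -/

open Polynomial Filter Topology MeasureTheory

namespace W96CL.H918

theorem enum {d : ℕ} (s : Multiset ℂ) (hs : Multiset.card s = d) :
    ∃ ξ : Fin d → ℂ, s = (List.ofFn ξ : Multiset ℂ) := by
  subst hs
  have hl : s.toList.length = Multiset.card s := Multiset.length_toList s
  refine ⟨fun i => s.toList.get (i.cast hl.symm), ?_⟩
  have : List.ofFn (fun i : Fin (Multiset.card s) => s.toList.get (i.cast hl.symm)) = s.toList := by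
    apply List.ext_get
    · simp
    · intro n h1 h2
      simp
  rw [this, Multiset.coe_toList]

theorem factor {d : ℕ} {P : ℂ[X]} (hP : P.Monic) (hd : P.natDegree = d) :
    ∃ ξ : Fin d → ℂ, P = ∏ i, (X - C (ξ i)) := by
  have hs : P.Splits := IsAlgClosed.splits P
  have hc : Multiset.card P.roots = d := by
    rw [← hd]; exact hs.natDegree_eq_card_roots.symm
  obtain ⟨ξ, hξ⟩ := enum P.roots hc
  refine ⟨ξ, ?_⟩
  have h := hs.eq_prod_roots_of_monic hP
  rw [hξ] at h
  rw [h, Multiset.map_coe, Multiset.prod_coe, List.map_ofFn, List.prod_ofFn]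
  rfl

end W96CL.H918

namespace W96CL

theorem cl_rootcont : S_rootcont := by
  intro d P Q hP hQ hQd hc
  choose ξ hξ using fun m => H918.factor (hP m).1 (hP m).2
  -- the coefficients are bounded
  have hb : ∀ k, ∃ B : ℝ, ∀ m, ‖(P m).coeff k‖ ≤ B := by
    intro k
    obtain ⟨B, hB⟩ := (hc k).norm.bddAbove_range
    exact ⟨B, fun m => hB ⟨m, rfl⟩⟩
  choose B hB using hb
  have hB0 : ∀ k, 0 ≤ B k := fun k => (norm_nonneg _).trans (hB k 0)
  set R : ℝ := ∑ k ∈ Finset.range d, B k with hR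
  have hR0 : 0 ≤ R := Finset.sum_nonneg fun k _ => hB0 k
  have hroot : ∀ m i, ‖ξ m i‖ ≤ R + 1 := by
    intro m i
    have hr : (P m).IsRoot (ξ m i) := by
      rw [IsRoot.def, hξ m, eval_prod]
      exact Finset.prod_eq_zero (Finset.mem_univ i) (by simp)
    have h1 := hr.norm_lt_cauchyBound (hP m).1.ne_zero
    have h2 : cauchyBound (P m) ≤ ⟨R, hR0⟩ + 1 := by
      unfold cauchyBound
      rw [(hP m).1.leadingCoeff, (hP m).2, nnnorm_one, div_one]
      have h3 : (Finset.range d).sup (fun k => ‖(P m).coeff k‖₊) ≤ ⟨R, hR0⟩ := by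
        refine Finset.sup_le fun k hk => ?_
        have h5 : ‖(P m).coeff k‖ ≤ R :=
          (hB k m).trans (Finset.single_le_sum (fun k _ => hB0 k) hk)
        exact h5
      exact add_le_add h3 le_rfl
    have h4 : ‖ξ m i‖₊ ≤ ⟨R, hR0⟩ + 1 := (le_of_lt h1).trans h2
    exact h4
  have hmem : ∀ m, ξ m ∈ Metric.closedBall (0 : Fin d → ℂ) (R + 1) := by
    intro m
    rw [mem_closedBall_zero_iff, pi_norm_le_iff_of_nonneg (by linarith)]
    exact hroot m
  obtain ⟨η, -, φ, hφ, hlim⟩ := (isCompact_closedBall (0 : Fin d → ℂ) (R + 1)).tendsto_subseq hmem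
  rw [tendsto_pi_nhds] at hlim
  refine ⟨φ, hφ, fun m => ξ (φ m), η, fun m => hξ (φ m), ?_, hlim⟩
  apply Polynomial.funext
  intro x
  have h1 : Tendsto (fun m => eval x (P (φ m))) atTop (𝓝 (eval x Q)) := by
    have h2 : Tendsto (fun m => ∑ k ∈ Finset.range (d + 1), (P (φ m)).coeff k * x ^ k) atTop
        (𝓝 (∑ k ∈ Finset.range (d + 1), Q.coeff k * x ^ k)) :=
      tendsto_finsetSum _ fun k _ => ((hc k).comp hφ.tendsto_atTop).mul_const _
    rw [← eval_eq_sum_range' (by omega)] at h2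
    refine h2.congr fun m => ?_
    rw [← eval_eq_sum_range' (by rw [(hP (φ m)).2]; omega)]
  have h3 : Tendsto (fun m => eval x (P (φ m))) atTop (𝓝 (∏ i, (x - η i))) := by
    have h4 : Tendsto (fun m => ∏ i, (x - ξ (φ m) i)) atTop (𝓝 (∏ i, (x - η i))) :=
      tendsto_finsetProd _ fun i _ => tendsto_const_nhds.sub (hlim i)
    refine h4.congr fun m => ?_
    conv_rhs => rw [hξ (φ m), eval_prod]
    simp
  rw [tendsto_nhds_unique h1 h3, eval_prod]
  simp

end W96CL
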